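import Pool.Agent.Y142.ZS.Stm
import Pool.Agent.Y142.SI.Stm

set_option autoImplicit false

/-!
Project Y142-SU (owner helper142): Tate classes on powers of motives of unitary type at 100 percent of
the primes `ℓ`. Statements of the self-contained sub-tasks.
-/

open Matrix Polynomial Filter Topology NumberField IsDedekindDomain
open Pool.Agent.Y142.ZO Pool.Agent.Y142.ZI
open Pool.Agent.Y142.ZS (Sim Generic)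
open Pool.Agent.Y142.ZD (DistPow)

namespace Pool.Agent.Y142.SU

section alg
variable {F : Type} [Field F] {N : ℕ}

/-- the special unitary Lie algebra of the form `J` with the coefficients `𝒞` -/
def SULie (J : Matrix (Fin N) (Fin N) F) (𝒞 : Subalgebra F (Matrix (Fin N) (Fin N) F))
    (X : Matrix (Fin N) (Fin N) F) : Prop :=
  (∀ A ∈ 𝒞, X * A = A * X) ∧ Xᵀ * J + J * X = 0 ∧ ∀ A ∈ 𝒞, (X * A).trace = 0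

/-- a form with a nontrivial involution of the coefficients -/
def Herm (J : Matrix (Fin N) (Fin N) F) (𝒞 : Subalgebra F (Matrix (Fin N) (Fin N) F)) : Prop :=
  (Jᵀ = J ∨ Jᵀ = -J) ∧ J.det ≠ 0 ∧ (∀ A ∈ 𝒞, ∀ B ∈ 𝒞, A * B = B * A) ∧
  (∀ A ∈ 𝒞, ∃ A' ∈ 𝒞, Aᵀ * J = J * A') ∧ ∃ A ∈ 𝒞, ∃ A' ∈ 𝒞, Aᵀ * J = J * A' ∧ (A - A').det ≠ 0

/-- a linear combination of products `∏ J(A v_j, v_{π j})`, for perfect matchings `π`, `A ∈ 𝒞` -/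
def FromHerm (J : Matrix (Fin N) (Fin N) F) (𝒞 : Subalgebra F (Matrix (Fin N) (Fin N) F)) (k : ℕ) :
    Submodule F ((Fin k → Fin N → F) → F) :=
  Submodule.span F {f : (Fin k → Fin N → F) → F |
    ∃ (π : Equiv.Perm (Fin k)) (A : Fin k → Matrix (Fin N) (Fin N) F),
      (∀ j, π (π j) = j) ∧ (∀ j, π j ≠ j) ∧ (∀ j, A j ∈ 𝒞) ∧
      ∀ v, f v = ∏ j with j < π j, ((A j *ᵥ v j) ⬝ᵥ J *ᵥ v (π j))}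

end alg

/-- task DCT: double commutant -/
def S_DCT : Prop := ∀ (ℓ : ℕ) [Fact ℓ.Prime] (N : ℕ) (G : Type) [Group G] [TopologicalSpace G]
  [IsTopologicalGroup G] [CompactSpace G]
  (ρ : G →* Matrix (Fin N) (Fin N) ℚ_[ℓ]), Continuous ρ →
  ∀ 𝒞 : Subalgebra ℚ_[ℓ] (Matrix (Fin N) (Fin N) ℚ_[ℓ]),
  (∀ U : Subgroup G, IsOpen (U : Set G) →
    (∀ X, (∀ τ ∈ U, X * ρ τ = ρ τ * X) → X ∈ 𝒞) ∧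
    ∀ W : Submodule ℚ_[ℓ] (Fin N → ℚ_[ℓ]), (∀ σ ∈ U, ∀ w ∈ W, ρ σ *ᵥ w ∈ W) →
    ∃ W' : Submodule ℚ_[ℓ] (Fin N → ℚ_[ℓ]), (∀ σ ∈ U, ∀ w ∈ W', ρ σ *ᵥ w ∈ W') ∧ IsCompl W W') →
  ∀ X, (∀ A ∈ 𝒞, X * A = A * X) → X ∈ Algebra.adjoin ℚ_[ℓ] {Y | IsTangent ℓ ρ Y}

/-- task ROOTU -/
def S_ROOTU : Prop := ∀ (F : Type) [Field F] [CharZero F] (N : ℕ)
  (J g : Matrix (Fin N) (Fin N) F) (c : F) (𝔤 : Submodule F (Matrix (Fin N) (Fin N) F))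
  (𝒞 : Subalgebra F (Matrix (Fin N) (Fin N) F)),
  Herm J 𝒞 → c ≠ 0 → Sim J g c → g.charpoly.Splits → g.charpoly.Separable →
  (∀ x y z w : F, g.charpoly.IsRoot x → g.charpoly.IsRoot y → g.charpoly.IsRoot z →
    g.charpoly.IsRoot w → x ≠ y → x * w = z * y → (z = x ∧ w = y) ∨ (z * y = c ∧ w * x = c)) →
  (∀ Z ∈ 𝔤, ∃ μ : F, Zᵀ * J + J * Z = μ • J) → (∀ X ∈ 𝔤, ∀ Y ∈ 𝔤, X * Y - Y * X ∈ 𝔤) →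
  (∀ Z ∈ 𝔤, g * Z * g⁻¹ ∈ 𝔤) →
  (∀ A ∈ 𝒞, A * g = g * A) → (∀ A ∈ 𝒞, ∀ Z ∈ 𝔤, A * Z = Z * A) →
  (∀ X, (∀ A ∈ 𝒞, X * A = A * X) →
    X ∈ Algebra.adjoin F (𝔤 : Set (Matrix (Fin N) (Fin N) F))) →
  ∀ X, SULie J 𝒞 X → X ∈ 𝔤

/-- task LIEU: descent from the algebraic closure -/
def S_LIEU : Prop := ∀ (ℓ : ℕ) [Fact ℓ.Prime] (N : ℕ)
  (J g : Matrix (Fin N) (Fin N) ℚ_[ℓ]) (c : ℚ_[ℓ]) (𝔤 : Submodule ℚ_[ℓ] (Matrix (Fin N) (Fin N) ℚ_[ℓ]))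
  (𝒞 : Subalgebra ℚ_[ℓ] (Matrix (Fin N) (Fin N) ℚ_[ℓ])),
  Herm J 𝒞 → c ≠ 0 → Sim J g c → g.charpoly.Separable → Generic g.charpoly c →
  (∀ Z ∈ 𝔤, ∃ μ : ℚ_[ℓ], Zᵀ * J + J * Z = μ • J) → (∀ X ∈ 𝔤, ∀ Y ∈ 𝔤, X * Y - Y * X ∈ 𝔤) →
  (∀ Z ∈ 𝔤, g * Z * g⁻¹ ∈ 𝔤) →
  (∀ A ∈ 𝒞, A * g = g * A) → (∀ A ∈ 𝒞, ∀ Z ∈ 𝔤, A * Z = Z * A) →
  (∀ X, (∀ A ∈ 𝒞, X * A = A * X) →
    X ∈ Algebra.adjoin ℚ_[ℓ] (𝔤 : Set (Matrix (Fin N) (Fin N) ℚ_[ℓ]))) →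
  ∀ X, SULie J 𝒞 X → X ∈ 𝔤

/-- task FFTU: the first fundamental theorem in degree `k < n` -/
def S_FFTU : Prop := ∀ (F : Type) [Field F] [CharZero F] [IsAlgClosed F] (N n : ℕ)
  (J : Matrix (Fin N) (Fin N) F) (𝒞 : Subalgebra F (Matrix (Fin N) (Fin N) F)), Herm J 𝒞 →
  (∀ A ∈ 𝒞, IsNilpotent A → A = 0) → (∀ e ∈ 𝒞, e * e = e → e ≠ 0 → n ≤ e.rank) →
  ∀ (k : ℕ) (φ : MultilinearMap F (fun _ : Fin k => Fin N → F) F), k < n →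
    (∀ X, SULie J 𝒞 X → ∀ v : Fin k → Fin N → F,
      ∑ j, φ (Function.update v j (X *ᵥ v j)) = 0) →
    (fun v => φ v) ∈ FromHerm J 𝒞 k

/-- task FFTD: descent of the first fundamental theorem -/
def S_FFTD : Prop := ∀ (ℓ : ℕ) [Fact ℓ.Prime] (N n : ℕ)
  (J : Matrix (Fin N) (Fin N) ℚ_[ℓ]) (𝒞 : Subalgebra ℚ_[ℓ] (Matrix (Fin N) (Fin N) ℚ_[ℓ])),
  Herm J 𝒞 → (∀ A ∈ 𝒞, IsNilpotent A → A = 0) →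
  (∀ A : 𝒞, (A : Matrix (Fin N) (Fin N) ℚ_[ℓ]).trace =
    (n : ℚ_[ℓ]) * LinearMap.trace ℚ_[ℓ] 𝒞 (LinearMap.mulLeft ℚ_[ℓ] A)) →
  ∀ (k : ℕ) (φ : MultilinearMap ℚ_[ℓ] (fun _ : Fin k => Fin N → ℚ_[ℓ]) ℚ_[ℓ]), k < n →
    (∀ X, SULie J 𝒞 X → ∀ v : Fin k → Fin N → ℚ_[ℓ],
      ∑ j, φ (Function.update v j (X *ᵥ v j)) = 0) →
    (fun v => φ v) ∈ FromHerm J 𝒞 k

/-- task PERF: the special unitary Lie algebra is perfect -/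
def S_PERF : Prop := ∀ (F : Type) [Field F] [CharZero F] (N : ℕ)
  (J : Matrix (Fin N) (Fin N) F) (𝒞 : Subalgebra F (Matrix (Fin N) (Fin N) F)), Herm J 𝒞 →
  (∀ A ∈ 𝒞, IsNilpotent A → A = 0) → ∀ X, SULie J 𝒞 X →
  X ∈ Submodule.span F {Z : Matrix (Fin N) (Fin N) F | ∃ Y Y' : Matrix (Fin N) (Fin N) F,
    SULie J 𝒞 Y ∧ SULie J 𝒞 Y' ∧ Z = Y * Y' - Y' * Y}

/-- task COEF: the algebra of coefficients -/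
def S_COEF : Prop := ∀ (ℓ : ℕ) [Fact ℓ.Prime] (N n : ℕ) (E : IntermediateField ℚ QQ),
  FiniteDimensional ℚ E → 0 < n → ∀ ε : E →+* Matrix (Fin N) (Fin N) ℚ_[ℓ],
  (∀ a : E, (ε a).trace = (n : ℚ_[ℓ]) * ((Algebra.trace ℚ E a : ℚ) : ℚ_[ℓ])) →
  (∀ A ∈ Algebra.adjoin ℚ_[ℓ] (Set.range ε), ∀ B ∈ Algebra.adjoin ℚ_[ℓ] (Set.range ε),
    A * B = B * A) ∧
  (∀ A ∈ Algebra.adjoin ℚ_[ℓ] (Set.range ε), IsNilpotent A → A = 0) ∧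
  (∀ A ∈ Algebra.adjoin ℚ_[ℓ] (Set.range ε), A ∈ Submodule.span ℚ_[ℓ] (Set.range ε)) ∧
  ∀ A : Algebra.adjoin ℚ_[ℓ] (Set.range ε), (A : Matrix (Fin N) (Fin N) ℚ_[ℓ]).trace =
    (n : ℚ_[ℓ]) * LinearMap.trace ℚ_[ℓ] (Algebra.adjoin ℚ_[ℓ] (Set.range ε))
      (LinearMap.mulLeft ℚ_[ℓ] A)

/-- task INVU: forms invariant under the isometries in an open subgroup -/
def S_INVU : Prop := ∀ (ℓ : ℕ) [Fact ℓ.Prime] (N : ℕ) (G : Type) [Group G] [TopologicalSpace G]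
  [IsTopologicalGroup G] [CompactSpace G]
  (ρ : G →* Matrix (Fin N) (Fin N) ℚ_[ℓ]), Continuous ρ →
  ∀ (J : Matrix (Fin N) (Fin N) ℚ_[ℓ]) (𝒞 : Subalgebra ℚ_[ℓ] (Matrix (Fin N) (Fin N) ℚ_[ℓ])),
  Herm J 𝒞 → (∀ A ∈ 𝒞, IsNilpotent A → A = 0) →
  (∀ g, ∃ c : ℚ_[ℓ], Sim J (ρ g) c) →
  (∀ X, SULie J 𝒞 X → IsTangent ℓ ρ X) →
  ∀ (k : ℕ) (φ : MultilinearMap ℚ_[ℓ] (fun _ : Fin k => Fin N → ℚ_[ℓ]) ℚ_[ℓ]) (U : Subgroup G),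
    IsOpen (U : Set G) →
    (∀ σ ∈ U, (ρ σ)ᵀ * J * ρ σ = J → ∀ v, φ (fun j => ρ σ *ᵥ v j) = φ v) →
    ∀ X, SULie J 𝒞 X → ∀ v : Fin k → Fin N → ℚ_[ℓ],
      ∑ j, φ (Function.update v j (X *ᵥ v j)) = 0

end Pool.Agent.Y142.SU
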