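import Pool.Agent.Y142.SI.Fin
import Pool.Agent.Y142.SU.Stm

/-!
# Project SU: assembly
-/

set_option autoImplicit false
set_option linter.style.haveILetI false
set_option linter.unusedSectionVars false

open Matrix Polynomial Filter Topology NumberField IsDedekindDomain
open Pool.Agent.Y142.ZO Pool.Agent.Y142.ZI
open Pool.Agent.Y142.ZS (NiceP restrict0 nice_of_p push_C Sim Generic S_TANS)
open Pool.Agent.Y142.ZD (DistPow dist_of_nice S_ABS S_BADD S_SUB)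
open Pool.Agent.Y142.SS
open Pool.Agent.Y142.SI

namespace Pool.Agent.Y142.SU

section loc
variable {ℓ : ℕ} [Fact ℓ.Prime] {N : ℕ} {Γ : Type} [Group Γ] [TopologicalSpace Γ]
  [IsTopologicalGroup Γ] [CompactSpace Γ]

theorem herm_of {E : IntermediateField ℚ QQ} {J : Matrix (Fin N) (Fin N) ℚ_[ℓ]}
    (hJ : Jᵀ = J ∨ Jᵀ = -J) (hdet : J.det ≠ 0) (ε : E →+* Matrix (Fin N) (Fin N) ℚ_[ℓ])
    (hcomm : ∀ A ∈ Algebra.adjoin ℚ_[ℓ] (Set.range ε), ∀ B ∈ Algebra.adjoin ℚ_[ℓ] (Set.range ε),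
      A * B = B * A) (bar : E →+* E) (hbar : ∃ a, bar a ≠ a)
    (hεJ : ∀ a, (ε a)ᵀ * J = J * ε (bar a)) :
    Herm J (Algebra.adjoin ℚ_[ℓ] (Set.range ε)) := by
  refine ⟨hJ, hdet, hcomm, ?_, ?_⟩
  · intro A hA
    induction hA using Algebra.adjoin_induction with
    | mem x hx =>
      obtain ⟨a, rfl⟩ := hx
      exact ⟨ε (bar a), Algebra.subset_adjoin ⟨_, rfl⟩, hεJ a⟩
    | algebraMap r =>
      refine ⟨algebraMap _ _ r, Subalgebra.algebraMap_mem _ r, ?_⟩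
      rw [Algebra.algebraMap_eq_smul_one, transpose_smul, transpose_one, smul_mul_assoc, one_mul,
        mul_smul_comm, mul_one]
    | add x y _ _ hx hy =>
      obtain ⟨x', hx', h1⟩ := hx
      obtain ⟨y', hy', h2⟩ := hy
      refine ⟨x' + y', Subalgebra.add_mem _ hx' hy', ?_⟩
      rw [transpose_add, add_mul, h1, h2, mul_add]
    | mul x y _ _ hx hy =>
      obtain ⟨x', hx', h1⟩ := hx
      obtain ⟨y', hy', h2⟩ := hy
      refine ⟨y' * x', Subalgebra.mul_mem _ hy' hx', ?_⟩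
      rw [transpose_mul, mul_assoc, h1, ← mul_assoc, h2, mul_assoc]
  · obtain ⟨a, ha⟩ := hbar
    refine ⟨ε a, Algebra.subset_adjoin ⟨_, rfl⟩, ε (bar a), Algebra.subset_adjoin ⟨_, rfl⟩,
      hεJ a, ?_⟩
    have h1 : a - bar a ≠ 0 := sub_ne_zero.2 (Ne.symm ha)
    have h2 : ε (a - bar a) * ε (a - bar a)⁻¹ = 1 := by
      rw [← map_mul, mul_inv_cancel₀ h1, map_one]
    have h3 := congrArg det h2
    rw [det_mul, det_one, map_sub] at h3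
    exact left_ne_zero_of_mul (by rw [h3]; exact one_ne_zero)

theorem comm_tangent {A X : Matrix (Fin N) (Fin N) ℚ_[ℓ]}
    {ρ : Γ →* Matrix (Fin N) (Fin N) ℚ_[ℓ]} (hA : ∀ γ, A * ρ γ = ρ γ * A)
    (hX : IsTangent ℓ ρ X) : A * X = X * A := by
  obtain ⟨σ, hσ⟩ := hX
  have h1 := (tendsto_const_nhds (x := A)).mul hσ
  have h2 := hσ.mul (tendsto_const_nhds (x := A))
  refine tendsto_nhds_unique h1 (h2.congr fun n => ?_)
  rw [smul_mul_assoc, mul_smul_comm, mul_sub, sub_mul, hA, mul_one, one_mul]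

/-- the conclusions at one prime -/
theorem local_SU (hTAN : S_TAN) (hTANS : S_TANS) (hDCT : S_DCT) (hLIEU : S_LIEU) (hFFTD : S_FFTD)
    (hINVU : S_INVU) (hCOEF : S_COEF)
    (ρ : Γ →* Matrix (Fin N) (Fin N) ℚ_[ℓ]) (hρ : Continuous ρ)
    (E : IntermediateField ℚ QQ) (hfin : FiniteDimensional ℚ E) (n : ℕ) (hn : 0 < n)
    (ε : E →+* Matrix (Fin N) (Fin N) ℚ_[ℓ]) (hε : ∀ (a : E) (γ : Γ), ε a * ρ γ = ρ γ * ε a)
    (htr : ∀ a : E, (ε a).trace = (n : ℚ_[ℓ]) * ((Algebra.trace ℚ E a : ℚ) : ℚ_[ℓ]))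
    (J : Matrix (Fin N) (Fin N) ℚ_[ℓ]) (hJ : Jᵀ = J ∨ Jᵀ = -J) (hdet : J.det ≠ 0)
    (hsim : ∀ g, ∃ c : ℚ_[ℓ], Sim J (ρ g) c) (bar : E →+* E) (hbar : ∃ a, bar a ≠ a)
    (hεJ : ∀ a, (ε a)ᵀ * J = J * ε (bar a)) (hgood : GoodEnd ℓ E ρ ε)
    (τ : Γ) (c : ℚ_[ℓ]) (hc : c ≠ 0) (hτ : Sim J (ρ τ) c) (hsep : (ρ τ).charpoly.Separable)
    (hgen : Generic (ρ τ).charpoly c) :
    (∀ X, SULie J (Algebra.adjoin ℚ_[ℓ] (Set.range ε)) X → IsTangent ℓ ρ X) ∧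
    ∀ (k : ℕ) (φ : MultilinearMap ℚ_[ℓ] (fun _ : Fin k => Fin N → ℚ_[ℓ]) ℚ_[ℓ]) (U : Subgroup Γ),
      k < n → IsOpen (U : Set Γ) →
      (∀ σ ∈ U, (ρ σ)ᵀ * J * ρ σ = J → ∀ v, φ (fun j => ρ σ *ᵥ v j) = φ v) →
      (fun v => φ v) ∈ FromHerm J (Algebra.adjoin ℚ_[ℓ] (Set.range ε)) k := by
  obtain ⟨hcomm, hred, hspan, htrace⟩ := hCOEF ℓ N n E hfin hn ε htr
  have hH := herm_of hJ hdet ε hcomm bar hbar hεJ
  obtain ⟨𝔤, h𝔤, hbr, hconj, -⟩ := hTAN ℓ N Γ ρ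
  set 𝒞 := Algebra.adjoin ℚ_[ℓ] (Set.range ε) with h𝒞
  have hCρ : ∀ A ∈ 𝒞, ∀ γ, A * ρ γ = ρ γ * A := by
    intro A hA γ
    induction hA using Algebra.adjoin_induction with
    | mem x hx =>
      obtain ⟨a, rfl⟩ := hx
      exact hε a γ
    | algebraMap r => exact Algebra.commutes r _
    | add x y _ _ hx hy => rw [add_mul, mul_add, hx, hy]
    | mul x y _ _ hx hy => rw [mul_assoc, hy, ← mul_assoc, hx, mul_assoc]
  have hdct := hDCT ℓ N Γ ρ hρ 𝒞 fun U hU =>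
    ⟨fun X hX => Algebra.span_le_adjoin _ _ ((hgood U hU).1 X hX), (hgood U hU).2⟩
  have hset : {Y | IsTangent ℓ ρ Y} = (𝔤 : Set (Matrix (Fin N) (Fin N) ℚ_[ℓ])) := by
    ext Y
    exact (h𝔤 Y).symm
  rw [hset] at hdct
  have hinv : (ρ τ)⁻¹ = ρ τ⁻¹ := by
    apply Matrix.inv_eq_left_inv
    rw [← map_mul, inv_mul_cancel, map_one]
  have hfull : ∀ X, SULie J 𝒞 X → IsTangent ℓ ρ X := by
    intro X hX
    rw [← h𝔤]
    refine hLIEU ℓ N J (ρ τ) c 𝔤 𝒞 hH hc hτ hsep hgen ?_ hbr ?_ (fun A hA => hCρ A hA τ) ?_ hdct X hX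
    · intro Z hZ
      exact hTANS ℓ N Γ ρ J hdet hsim Z ((h𝔤 Z).1 hZ)
    · intro Z hZ
      rw [hinv]
      exact hconj τ Z hZ
    · intro A hA Z hZ
      exact comm_tangent (hCρ A hA) ((h𝔤 Z).1 hZ)
  refine ⟨hfull, fun k φ U hk hU hφ => ?_⟩
  exact hFFTD ℓ N n J 𝒞 hH hred htrace k φ hk
    (hINVU ℓ N Γ ρ hρ J 𝒞 hH hred hsim hfull k φ U hU hφ)

end loc

end Pool.Agent.Y142.SU
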