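import Pool.Agent.Y142.SU.Fin

/-!
# Project SU: density
-/

set_option autoImplicit false
set_option linter.style.haveILetI false
set_option linter.unusedSectionVars false

open Matrix Polynomial Filter Topology NumberField IsDedekindDomain
open Pool.Agent.Y142.ZO Pool.Agent.Y142.ZI
open Pool.Agent.Y142.ZS (NiceP GenP restrict0 nice_of_p push_C Sim Generic S_TANS)
open Pool.Agent.Y142.ZD (DistPow dist_of_nice S_ABS S_BADD S_SUB)
open Pool.Agent.Y142.SS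
open Pool.Agent.Y142.SI

namespace Pool.Agent.Y142.SU

section
variable {K : Type} [Field K] [NumberField K] {N : ℕ} {S : Set (HeightOneSpectrum (𝓞 K))}
  {P : HeightOneSpectrum (𝓞 K) → ℚ[X]} {q : HeightOneSpectrum (𝓞 K) → ℚ}
  {Γ : Type} [Group Γ] [TopologicalSpace Γ] [IsTopologicalGroup Γ] [CompactSpace Γ]

/-- the forms and the multipliers -/
def FormSys (K : Type) [Field K] [NumberField K] {Γ : Type} [Group Γ]
    (s : GK K →* Γ) (N ℓ : ℕ) [Fact ℓ.Prime]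
    (ρ : Γ →* Matrix (Fin N) (Fin N) ℚ_[ℓ]) (J : Matrix (Fin N) (Fin N) ℚ_[ℓ])
    (S : Set (HeightOneSpectrum (𝓞 K))) (q : HeightOneSpectrum (𝓞 K) → ℚ) : Prop :=
  (Jᵀ = J ∨ Jᵀ = -J) ∧ J.det ≠ 0 ∧ (∀ γ, ∃ c : ℚ_[ℓ], Sim J (ρ γ) c) ∧
    ∀ v ∉ S, (ℓ : 𝓞 K) ∉ v.asIdeal → ∀ σ : GK K, IsFrobenius v σ →
      Sim J (ρ (s σ⁻¹)) (q v : ℚ_[ℓ])

/-- the conclusions at one prime -/
def GoodSU (ℓ : ℕ) [Fact ℓ.Prime] (n : ℕ) (E : IntermediateField ℚ QQ)
    (ρ : Γ →* Matrix (Fin N) (Fin N) ℚ_[ℓ]) (ε : E →+* Matrix (Fin N) (Fin N) ℚ_[ℓ])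
    (J : Matrix (Fin N) (Fin N) ℚ_[ℓ]) : Prop :=
  (∀ X, SULie J (Algebra.adjoin ℚ_[ℓ] (Set.range ε)) X → IsTangent ℓ ρ X) ∧
    ∀ (k : ℕ) (φ : MultilinearMap ℚ_[ℓ] (fun _ : Fin k => Fin N → ℚ_[ℓ]) ℚ_[ℓ]) (U : Subgroup Γ),
      k < n → IsOpen (U : Set Γ) →
      (∀ σ ∈ U, (ρ σ)ᵀ * J * ρ σ = J → ∀ v, φ (fun j => ρ σ *ᵥ v j) = φ v) →
      (fun v => φ v) ∈ FromHerm J (Algebra.adjoin ℚ_[ℓ] (Set.range ε)) k

theorem q_ne_zeroU {v : HeightOneSpectrum (𝓞 K)} (hN : 0 < N) (s : GK K →* Γ)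
    (ρ : ∀ (ℓ : ℕ) [Fact ℓ.Prime], Γ →* Matrix (Fin N) (Fin N) ℚ_[ℓ])
    (J : ∀ (ℓ : ℕ) [Fact ℓ.Prime], Matrix (Fin N) (Fin N) ℚ_[ℓ])
    (hJ : ∀ (ℓ : ℕ) [Fact ℓ.Prime], FormSys K s N ℓ (ρ ℓ) (J ℓ) S q) (hv : v ∉ S) : q v ≠ 0 := by
  obtain ⟨ℓ, hℓ, hp⟩ := Nat.exists_infinite_primes (Ideal.absNorm v.asIdeal + 1)
  haveI : Fact ℓ.Prime := ⟨hp⟩
  have hvℓ := not_mem_of_lt v hp (by omega : Ideal.absNorm v.asIdeal < ℓ)
  obtain ⟨σ, hσ⟩ := Pool.Agent.W401.Frob.exists_frob v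
  have h1 := (hJ ℓ).2.2.2 v hv hvℓ σ hσ
  intro h0
  unfold Sim at h1
  rw [h0, Rat.cast_zero, zero_smul] at h1
  have h2 := congrArg det h1
  haveI : Nonempty (Fin N) := ⟨⟨0, hN⟩⟩
  rw [det_mul, det_mul, det_transpose, det_zero] at h2
  have h3 : (ρ ℓ (s σ⁻¹)).det ≠ 0 := by
    have h4 : ρ ℓ (s σ⁻¹) * ρ ℓ (s σ) = 1 := by
      rw [← map_mul, ← map_mul, inv_mul_cancel, map_one, map_one]
    have h5 := congrArg det h4
    rw [det_mul, det_one] at h5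
    exact left_ne_zero_of_mul (by rw [h5]; exact one_ne_zero)
  exact mul_ne_zero (mul_ne_zero h3 (hJ ℓ).2.1) h3 h2

theorem generic_of_gen {v : HeightOneSpectrum (𝓞 K)} (hv : GenP S P q v) (ℓ : ℕ)
    [hℓ : Fact ℓ.Prime] : Generic ((P v).map (algebraMap ℚ ℚ_[ℓ])) (q v : ℚ_[ℓ]) := by
  obtain ⟨hvS, hmon, hsep, hq, hgen⟩ := hv
  intro x' y' z' w' hx' hy' hz' hw' hxy hxw
  obtain ⟨ι⟩ := emb ℓ
  obtain ⟨x, hx, rfl⟩ := lift_root ℓ ι hmon.ne_zero hx'
  obtain ⟨y, hy, rfl⟩ := lift_root ℓ ι hmon.ne_zero hy'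
  obtain ⟨z, hz, rfl⟩ := lift_root ℓ ι hmon.ne_zero hz'
  obtain ⟨w, hw, rfl⟩ := lift_root ℓ ι hmon.ne_zero hw'
  rw [← map_mul, ← map_mul] at hxw
  have hc : algebraMap ℚ_[ℓ] (AlgebraicClosure ℚ_[ℓ]) (q v : ℚ_[ℓ]) = ι (q v : QQ) := by
    rw [map_ratCast, map_ratCast]
  rcases hgen x y z w hx hy hz hw (fun h => hxy (by rw [h])) (ι.injective hxw) with h | h
  · left
    rw [h.1, h.2]
    exact ⟨rfl, rfl⟩
  · right
    rw [hc, ← map_mul, ← map_mul, h.1, h.2]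
    exact ⟨rfl, rfl⟩

theorem gen_of_complexU {v : HeightOneSpectrum (𝓞 K)} (hv : v ∉ S) (hmon : (P v).Monic)
    (hq : q v ≠ 0) (hsep : (P v).Separable)
    (h2 : ∀ x y z w : ℂ, aeval x (P v) = 0 → aeval y (P v) = 0 → aeval z (P v) = 0 →
      aeval w (P v) = 0 → x ≠ y → x * w = z * y →
      (z = x ∧ w = y) ∨ (z * y = (q v : ℂ) ∧ w * x = (q v : ℂ))) :
    GenP S P q v := by
  obtain ⟨jc⟩ := nonempty_LC
  refine ⟨hv, hmon, hsep, hq, ?_⟩
  intro x y z w hx hy hz hw hxy hxw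
  have hc : (q v : ℂ) = jc (q v : QQ) := by rw [map_ratCast]
  rcases h2 (jc x) (jc y) (jc z) (jc w) (push_C jc hx) (push_C jc hy) (push_C jc hz) (push_C jc hw)
    (fun h => hxy (jc.injective h)) (by rw [← map_mul, ← map_mul, hxw]) with h | h
  · exact Or.inl ⟨jc.injective h.1, jc.injective h.2⟩
  · right
    rw [hc, ← map_mul, ← map_mul] at h
    exact ⟨jc.injective h.1, jc.injective h.2⟩

theorem densitySU (hTAN : S_TAN) (hTANS : S_TANS) (hDCT : S_DCT) (hLIEU : S_LIEU)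
    (hFFTD : S_FFTD) (hINVU : S_INVU) (hCOEF : S_COEF)
    (hLOC : S_LOC) (hLOGR : S_LOGR) (hKRS : S_KRS) (hCHARA : S_CHARA)
    (hMULTI : S_MULTI) (hFROB : S_FROB) (hINT : S_INT) (hDENS2 : S_DENS2) (hBADD : S_BADD)
    (hSUB : S_SUB) (hSUBF : S_SUBF) (hEF : S_EF) (hTRD : S_TRD) (hENDE : S_ENDE)
    (hS : S.Finite) (s : GK K →* Γ) (hs : Continuous s)
    (ρ : ∀ (ℓ : ℕ) [Fact ℓ.Prime], Γ →* Matrix (Fin N) (Fin N) ℚ_[ℓ])
    (hsys : ∀ (ℓ : ℕ) [Fact ℓ.Prime], GenSys K s N ℓ (ρ ℓ) S P)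
    (E : IntermediateField ℚ QQ) (hfin : FiniteDimensional ℚ E) (hE : Normal ℚ E)
    (n : ℕ) (hn : 0 < n) (hNn : N = n * Module.finrank ℚ E)
    (ε : ∀ (ℓ : ℕ) [Fact ℓ.Prime], E →+* Matrix (Fin N) (Fin N) ℚ_[ℓ])
    (hε : ∀ (ℓ : ℕ) [Fact ℓ.Prime] (a : E) (γ : Γ), ε ℓ a * ρ ℓ γ = ρ ℓ γ * ε ℓ a)
    (htr : ∀ (ℓ : ℕ) [Fact ℓ.Prime] (a : E),
      (ε ℓ a).trace = (n : ℚ_[ℓ]) * ((Algebra.trace ℚ E a : ℚ) : ℚ_[ℓ]))
    (J : ∀ (ℓ : ℕ) [Fact ℓ.Prime], Matrix (Fin N) (Fin N) ℚ_[ℓ])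
    (hJ : ∀ (ℓ : ℕ) [Fact ℓ.Prime], FormSys K s N ℓ (ρ ℓ) (J ℓ) S q)
    (bar : E →+* E) (hbar : ∃ a, bar a ≠ a)
    (hεJ : ∀ (ℓ : ℕ) [Fact ℓ.Prime] (a : E), (ε ℓ a)ᵀ * J ℓ = J ℓ * ε ℓ (bar a))
    {w₀ : HeightOneSpectrum (𝓞 K)} (hw₀ : GenP S P q w₀)
    {m : ℕ} (u : Fin (m + 1) → HeightOneSpectrum (𝓞 K)) (hu : ∀ i, NiceP S P (u i))
    (hI : ∀ (g : GK ℚ) (d : ℕ), 0 < d → d < N → ¬ n * ordE E g ∣ d →
      ∃ v, NiceP S P v ∧ ∃ w ∈ NoSet d (P v), w⁻¹ * g ∈ Subgroup.closure (⋃ i, Fix (P (u i))))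
    (hII : ∀ g : GK ℚ, ∃ v, NiceP S P v ∧ ∃ w ∈ Cl2 E n (P v),
      w⁻¹ * g ∈ Subgroup.closure (⋃ i, Fix (P (u i)))) :
    ZI.DensityZero {ℓ | ∃ _ : Fact ℓ.Prime, ¬ GoodSU ℓ n E (ρ ℓ) (ε ℓ) (J ℓ)} := by
  classical
  have he : 0 < Module.finrank ℚ E := Module.finrank_pos
  have hN : 0 < N := by
    rw [hNn]
    exact Nat.mul_pos hn he
  have hsys' : ∀ (ℓ : ℕ) [Fact ℓ.Prime], Sys K N ℓ ((ρ ℓ).comp s) S P := fun ℓ _ =>
    ⟨(hsys ℓ).1.comp hs, fun v hv hvℓ σ hσ => (hsys ℓ).2 v hv hvℓ σ hσ⟩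
  have hbad0 : ZI.DensityZero {ℓ : ℕ | ℓ.Prime ∧ ℓ ≤ Ideal.absNorm w₀.asIdeal} := by
    refine densityPhi hLOC hLOGR hKRS hCHARA hMULTI hFROB hINT hDENS2 hN hS
      (fun ℓ _ => (ρ ℓ).comp s) hsys' u hu (Gd := Set.univ) (fun _ _ => trivial)
      (Φ := fun _ => Set.univ)
      ⟨fun _ _ _ _ => trivial, fun _ _ _ _ _ _ => trivial, fun _ _ _ _ _ => trivial⟩
      (fun g => ⟨u 0, hu 0, g, trivial, by rw [inv_mul_cancel]; exact Subgroup.one_mem _⟩)
      _ (fun ℓ hℓ => hℓ.1)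
      (fun v _ => ⟨Ideal.absNorm w₀.asIdeal, fun ℓ hℓ h => absurd hℓ.2 (by omega)⟩)
  have hmain := densitySI hLOC hLOGR hKRS hCHARA hMULTI hFROB hINT hDENS2 hBADD hSUB hSUBF hEF
    hTRD hENDE hS s hs ρ hsys E hfin hE n hn hNn ε hε htr u hu hI hII
  refine ZI.DensityZero.mono (hbad0.union hmain) ?_
  rintro ℓ ⟨hp, hno⟩
  by_contra hnot
  rw [Set.mem_union, not_or] at hnot
  obtain ⟨h0, h1⟩ := hnot
  have hℓ : Ideal.absNorm w₀.asIdeal < ℓ := by
    by_contra h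
    exact h0 ⟨hp.out, by omega⟩
  have hgood : GoodEnd ℓ E (ρ ℓ) (ε ℓ) := by
    by_contra h
    exact h1 ⟨hp, h⟩
  have hvℓ := not_mem_of_lt w₀ hp.out hℓ
  obtain ⟨σ, hσ⟩ := Pool.Agent.W401.Frob.exists_frob w₀
  have hchar := (hsys ℓ).2 w₀ hw₀.1 hvℓ σ hσ
  refine hno (local_SU hTAN hTANS hDCT hLIEU hFFTD hINVU hCOEF (ρ ℓ) (hsys ℓ).1 E hfin n hn (ε ℓ)
    (hε ℓ) (htr ℓ) (J ℓ) (hJ ℓ).1 (hJ ℓ).2.1 (hJ ℓ).2.2.1 bar hbar (hεJ ℓ) hgood (s σ⁻¹)
    (q w₀ : ℚ_[ℓ]) (by exact_mod_cast hw₀.2.2.2.1) ((hJ ℓ).2.2.2 w₀ hw₀.1 hvℓ σ hσ)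
    (by rw [hchar]; exact hw₀.2.2.1.map) (by rw [hchar]; exact generic_of_gen hw₀ ℓ))

end

/-! ### from the algebra of coefficients to the field -/

section conv
variable {ℓ : ℕ} [Fact ℓ.Prime] {N : ℕ}

theorem prod_span_aux {F ι M V : Type} [Field F] [AddCommGroup M] [Module F M] [DecidableEq ι]
    (g : ι → M →ₗ[F] (V → F)) (R : Set M) (r₀ : M) (hr₀ : r₀ ∈ R) (T : Finset ι) (A : ι → M)
    (hA : ∀ j, A j ∈ Submodule.span F R) :
    (fun v => ∏ j ∈ T, g j (A j) v) ∈ Submodule.span F {f : V → F | ∃ a : ι → M, (∀ j, a j ∈ R) ∧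
      f = fun v => ∏ j ∈ T, g j (a j) v} := by
  induction T using Finset.induction_on with
  | empty => exact Submodule.subset_span ⟨fun _ => r₀, fun _ => hr₀, rfl⟩
  | insert i T hi ih =>
    have key : ∀ r ∈ Submodule.span F R, (fun v => g i r v * ∏ j ∈ T, g j (A j) v) ∈
        Submodule.span F {f : V → F | ∃ a : ι → M, (∀ j, a j ∈ R) ∧
          f = fun v => ∏ j ∈ insert i T, g j (a j) v} := by
      intro r hr
      induction hr using Submodule.span_induction with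
      | mem r hr =>
        have h1 : ∀ f ∈ Submodule.span F {f : V → F | ∃ a : ι → M, (∀ j, a j ∈ R) ∧
            f = fun v => ∏ j ∈ T, g j (a j) v}, (fun v => g i r v * f v) ∈
            Submodule.span F {f : V → F | ∃ a : ι → M, (∀ j, a j ∈ R) ∧
              f = fun v => ∏ j ∈ insert i T, g j (a j) v} := by
          intro f hf
          induction hf using Submodule.span_induction with
          | mem f hf =>
            obtain ⟨a, ha, rfl⟩ := hf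
            refine Submodule.subset_span ⟨Function.update a i r, fun j => ?_, ?_⟩
            · by_cases h : j = i
              · rw [h, Function.update_self]
                exact hr
              · rw [Function.update_of_ne h]
                exact ha j
            · funext v
              rw [Finset.prod_insert hi, Function.update_self]
              congr 1
              refine Finset.prod_congr rfl fun j hj => ?_
              have hji : j ≠ i := by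
                rintro rfl
                exact hi hj
              rw [Function.update_of_ne hji]
          | zero =>
            have h0 : (fun v => g i r v * (0 : V → F) v) = 0 := by
              funext v
              simp
            rw [h0]
            exact Submodule.zero_mem _
          | add x y _ _ hx hy =>
            have h0 : (fun v => g i r v * (x + y) v) =
                (fun v => g i r v * x v) + fun v => g i r v * y v := by
              funext v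
              simp [mul_add]
            rw [h0]
            exact Submodule.add_mem _ hx hy
          | smul c x _ hx =>
            have h0 : (fun v => g i r v * (c • x) v) = c • fun v => g i r v * x v := by
              funext v
              simp only [Pi.smul_apply, smul_eq_mul]
              ring
            rw [h0]
            exact Submodule.smul_mem _ _ hx
        exact h1 _ ih
      | zero =>
        have h0 : (fun v => g i 0 v * ∏ j ∈ T, g j (A j) v) = 0 := by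
          funext v
          simp
        rw [h0]
        exact Submodule.zero_mem _
      | add x y _ _ hx hy =>
        have h0 : (fun v => g i (x + y) v * ∏ j ∈ T, g j (A j) v) =
            (fun v => g i x v * ∏ j ∈ T, g j (A j) v) +
              fun v => g i y v * ∏ j ∈ T, g j (A j) v := by
          funext v
          simp [add_mul]
        rw [h0]
        exact Submodule.add_mem _ hx hy
      | smul c x _ hx =>
        have h0 : (fun v => g i (c • x) v * ∏ j ∈ T, g j (A j) v) =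
            c • fun v => g i x v * ∏ j ∈ T, g j (A j) v := by
          funext v
          simp only [map_smul, Pi.smul_apply, smul_eq_mul]
          ring
        rw [h0]
        exact Submodule.smul_mem _ _ hx
    have h2 := key (A i) (hA i)
    have h3 : (fun v => ∏ j ∈ insert i T, g j (A j) v) =
        fun v => g i (A i) v * ∏ j ∈ T, g j (A j) v := by
      funext v
      rw [Finset.prod_insert hi]
    rw [h3]
    exact h2

/-- the pairing `J(A v_j, v_i)` is linear in `A` -/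
def pairL {F : Type} [Field F] {k N : ℕ} (J : Matrix (Fin N) (Fin N) F) (j i : Fin k) :
    Matrix (Fin N) (Fin N) F →ₗ[F] ((Fin k → Fin N → F) → F) where
  toFun A := fun v => (A *ᵥ v j) ⬝ᵥ J *ᵥ v i
  map_add' A B := by
    funext v
    simp only [add_mulVec, add_dotProduct, Pi.add_apply]
  map_smul' c A := by
    funext v
    simp only [smul_mulVec, smul_dotProduct, Pi.smul_apply, RingHom.id_apply]

theorem fromHerm_le {J : Matrix (Fin N) (Fin N) ℚ_[ℓ]}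
    {𝒞 : Subalgebra ℚ_[ℓ] (Matrix (Fin N) (Fin N) ℚ_[ℓ])} {E : Type} [Field E]
    (ε : E →+* Matrix (Fin N) (Fin N) ℚ_[ℓ])
    (hspan : ∀ A ∈ 𝒞, A ∈ Submodule.span ℚ_[ℓ] (Set.range ε)) (k : ℕ) :
    FromHerm J 𝒞 k ≤ Submodule.span ℚ_[ℓ] {f : (Fin k → Fin N → ℚ_[ℓ]) → ℚ_[ℓ] |
      ∃ (π : Equiv.Perm (Fin k)) (a : Fin k → E), (∀ j, π (π j) = j) ∧ (∀ j, π j ≠ j) ∧
        ∀ v, f v = ∏ j with j < π j, ((ε (a j) *ᵥ v j) ⬝ᵥ J *ᵥ v (π j))} := by
  classical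
  unfold FromHerm
  rw [Submodule.span_le]
  rintro f ⟨π, A, h1, h2, h3, hf⟩
  have h4 := prod_span_aux (fun j => pairL J j (π j)) (Set.range ε) (ε 1) ⟨1, rfl⟩
    (Finset.univ.filter fun j : Fin k => j < π j) A (fun j => hspan _ (h3 j))
  have h5 : f = fun v => ∏ j ∈ (Finset.univ.filter fun j : Fin k => j < π j),
      pairL J j (π j) (A j) v := by
    funext v
    rw [hf]
    rfl
  rw [SetLike.mem_coe, h5]
  refine Submodule.span_mono ?_ h4
  rintro f' ⟨a, ha, rfl⟩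
  choose b hb using ha
  refine ⟨π, b, h1, h2, fun v => ?_⟩
  refine Finset.prod_congr rfl fun j _ => ?_
  show (a j *ᵥ v j) ⬝ᵥ J *ᵥ v (π j) = _
  rw [hb j]

theorem suLie_of {J : Matrix (Fin N) (Fin N) ℚ_[ℓ]} {E : Type} [Field E]
    (ε : E →+* Matrix (Fin N) (Fin N) ℚ_[ℓ])
    (hspan : ∀ A ∈ Algebra.adjoin ℚ_[ℓ] (Set.range ε), A ∈ Submodule.span ℚ_[ℓ] (Set.range ε))
    {X : Matrix (Fin N) (Fin N) ℚ_[ℓ]} (h1 : ∀ a, X * ε a = ε a * X)
    (h2 : Xᵀ * J + J * X = 0) (h3 : ∀ a, (X * ε a).trace = 0) :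
    SULie J (Algebra.adjoin ℚ_[ℓ] (Set.range ε)) X := by
  refine ⟨fun A hA => ?_, h2, fun A hA => ?_⟩
  · have hA' := hspan A hA
    clear hA
    induction hA' using Submodule.span_induction with
    | mem x hx =>
      obtain ⟨a, rfl⟩ := hx
      exact h1 a
    | zero => rw [mul_zero, zero_mul]
    | add x y _ _ hx hy => rw [mul_add, add_mul, hx, hy]
    | smul c x _ hx => rw [mul_smul_comm, smul_mul_assoc, hx]
  · have hA' := hspan A hA
    clear hA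
    induction hA' using Submodule.span_induction with
    | mem x hx =>
      obtain ⟨a, rfl⟩ := hx
      exact h3 a
    | zero => rw [mul_zero, trace_zero]
    | add x y _ _ hx hy => rw [mul_add, trace_add, hx, hy, add_zero]
    | smul c x _ hx => rw [mul_smul_comm, trace_smul, hx, smul_zero]

end conv

end Pool.Agent.Y142.SU
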